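import Mathlib
import Pool.Agent.H.MP_130315_lc.A

namespace Pool.Agent.Results.MP_130315_lc.Counter

open Pool.Agent.H.MP_130315_lc

theorem result : ∃ (L : Sig) (φ : Form L), Finite L.Pred ∧ Finite L.Func ∧
    (∃ (W D : Type) (M : Model L W D) (s : Set W) (g : ℕ → D), ¬ φ.Supp M s g) ∧
    ∀ (W D : Type) (M : Model L W D), Countable D → ∀ (s : Set W) (g : ℕ → D), φ.Supp M s g :=
  ⟨L0, phi, inferInstanceAs (Finite Bool), inferInstanceAs (Finite Unit),
    ⟨_, _, M0, Set.univ, fun _ => (0, ∅), not_supp _⟩,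
    fun _ _ M _ s g => countable_supp M s g⟩

end Pool.Agent.Results.MP_130315_lc.Counter
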